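import Pool.Agent.Lib.MP_6d445e_gt.V.Iface3

/-! # VFI: finite sets in the Boolean-valued universe -/

universe u

open Cardinal

namespace Pool.Agent.Lib.MP_6d445e_gt.H94

open Pool.Agent.Lib.MP_6d445e_gt
open Pool.Agent.Lib.MP_100a6c_lc
open BName
open H36 (om nn)

variable {B : Type u} [CompleteBooleanAlgebra B]

/-- Finiteness by natural numbers. -/
theorem isFin_eq (F : BName B) :
    isFin (VB B) (check om) F = ⨆ k : ℕ, (VB B).leCard F (check (nn k)) := by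
  unfold isFin
  rw [iSup_VBcheck (ext_leCard_right F)]
  refine le_antisymm (iSup_le fun x => iSup_le fun hx => ?_) (iSup_le fun k => ?_)
  · obtain ⟨k, rfl⟩ := H36.mem_om.1 hx
    exact le_iSup (fun k : ℕ => (VB B).leCard F (check (nn k))) k
  · exact le_iSup_of_le (nn k) (le_iSup_of_le (H36.nn_mem_om k) le_rfl)

/-- Enumeration of a finite set. -/
theorem exists_enum_fin {Δ : B} {F : BName B} {k : ℕ}
    (h : Δ ≤ (VB B).leCard F (check (nn k))) :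
    ∃ t : Fin k → BName B, ∀ z, Δ ⊓ bmem z F ≤ ⨆ j, beq z (t j) := by
  obtain ⟨t, ht⟩ := exists_enum_of_le_leCard (k : Ordinal.{u}) h
  have h1 : #(ULift.{u} (Fin k)) = #(k : Ordinal.{u}).ToType := by
    rw [mk_toType, Ordinal.card_nat, mk_uLift, mk_fin]
    simp
  obtain ⟨e⟩ := Cardinal.eq.1 h1
  refine ⟨fun j => t (e ⟨j⟩), fun z => (ht z).trans (iSup_le fun y => ?_)⟩
  refine le_iSup_of_le (e.symm y).down ?_
  show beq z (t y) ≤ beq z (t (e (e.symm y)))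
  rw [e.apply_symm_apply]

theorem mix2 (c : B) (f g : BName B) : ∃ τ, c ≤ beq τ f ∧ cᶜ ≤ beq τ g := by
  obtain ⟨τ, hτ⟩ := mix (ι := ULift.{u} Bool) (fun i => if i.down then c else cᶜ)
    (fun i => if i.down then f else g) (by
      rintro ⟨i⟩ ⟨j⟩
      cases i <;> cases j
      · simp [beq_refl]
      · simp
      · simp
      · simp [beq_refl])
  exact ⟨τ, by simpa using hτ ⟨true⟩, by simpa using hτ ⟨false⟩⟩

theorem bound (Γ : B) (G F : BName B) (hF : Γ ≤ fsub (VB B) (check om) F G)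
    (φ : ℕ → BName B → B) (hφ : ∀ i, Ext (φ i)) (hG : ∀ x, Γ ⊓ bmem x G ≤ ⨆ i, φ i x) :
    Γ ≤ ⨆ j : ℕ, ⨅ x, bmem x F ⇨ ⨆ i : ℕ, ⨆ _ : i ≤ j, φ i x := by
  have hsub : Γ ≤ (VB B).sub F G := hF.trans inf_le_left
  have hfin : Γ ≤ ⨆ k : ℕ, (VB B).leCard F (check (nn k)) := by
    rw [← isFin_eq]; exact hF.trans inf_le_right
  refine (le_inf le_rfl hfin).trans ?_
  rw [inf_iSup_eq]
  refine iSup_le fun k => ?_
  obtain ⟨t, ht⟩ := exists_enum_fin (Δ := Γ ⊓ (VB B).leCard F (check (nn k))) inf_le_right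
  have h1 : ∀ j : Fin k, Γ ⊓ (VB B).leCard F (check (nn k)) ≤
      ⨆ m : ℕ, (bmem (t j) F)ᶜ ⊔ φ m (t j) := by
    intro j
    have h2 : Γ ⊓ bmem (t j) F ≤ ⨆ m, φ m (t j) :=
      (le_inf inf_le_left (sub_apply hsub (t j) inf_le_left inf_le_right)).trans (hG (t j))
    have h3 : Γ ≤ (bmem (t j) F)ᶜ ⊔ ⨆ m, φ m (t j) := by
      have : Γ = (Γ ⊓ (bmem (t j) F)ᶜ) ⊔ (Γ ⊓ bmem (t j) F) := by
        rw [← inf_sup_left, compl_sup_eq_top, inf_top_eq]
      rw [this]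
      exact sup_le_sup inf_le_right h2
    refine inf_le_left.trans (h3.trans (sup_le ?_ (iSup_le fun m => ?_)))
    · exact le_iSup_of_le 0 le_sup_left
    · exact le_iSup_of_le m le_sup_right
  have h2 := H36.fin_dist k _ (fun j m => (bmem (t j) F)ᶜ ⊔ φ m (t j)) h1
  refine (le_inf le_rfl h2).trans ?_
  rw [inf_iSup_eq]
  refine iSup_le fun v => le_iSup_of_le (Finset.univ.sup v) (le_iInf fun x => ?_)
  rw [le_himp_iff]
  have h3 : (Γ ⊓ (VB B).leCard F (check (nn k))) ⊓ bmem x F ≤ ⨆ j, beq x (t j) := ht x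
  refine (le_inf le_rfl ((inf_le_inf_right _ inf_le_left).trans h3)).trans ?_
  rw [inf_iSup_eq]
  refine iSup_le fun j => ?_
  refine le_iSup_of_le (v j) (le_iSup_of_le (Finset.le_sup (Finset.mem_univ j)) ?_)
  set Ω := (Γ ⊓ (VB B).leCard F (check (nn k)) ⊓
    ⨅ j, (bmem (t j) F)ᶜ ⊔ φ (v j) (t j)) ⊓ bmem x F ⊓ beq x (t j) with hΩ
  have e1 : Ω ≤ beq x (t j) := inf_le_right
  have e2 : Ω ≤ bmem x F := inf_le_left.trans inf_le_right
  have e3 : Ω ≤ bmem (t j) F := (ext_mem_left F).of_le e1 e2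
  have e4 : Ω ≤ (bmem (t j) F)ᶜ ⊔ φ (v j) (t j) :=
    (inf_le_left.trans (inf_le_left.trans inf_le_right)).trans (iInf_le _ j)
  have e5 : Ω ≤ φ (v j) (t j) := by
    refine (le_inf e3 e4).trans ?_
    rw [inf_sup_left, inf_compl_self, bot_sup_eq]
    exact inf_le_right
  exact (hφ (v j)).of_le' e1 e5

theorem local_enum (Γ : B) (G F : BName B) (hne : Γ ≤ ⨆ x, bmem x G)
    (hF : Γ ≤ fsub (VB B) (check om) F G) (a : B) (ha : a ≠ ⊥) (haΓ : a ≤ Γ) :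
    ∃ b, b ≠ ⊥ ∧ b ≤ a ∧ ∃ E : Finset (Lm Γ G), ∀ x, b ⊓ bmem x F ≤ ⨆ y ∈ E, beq x y.1 := by
  classical
  have hsub : Γ ≤ (VB B).sub F G := hF.trans inf_le_left
  have hfin : Γ ≤ ⨆ k : ℕ, (VB B).leCard F (check (nn k)) := by
    rw [← isFin_eq]; exact hF.trans inf_le_right
  obtain ⟨k, hk⟩ : ∃ k : ℕ, a ⊓ (VB B).leCard F (check (nn k)) ≠ ⊥ := by
    by_contra hc
    push Not at hc
    refine ha (le_bot_iff.1 ((le_inf le_rfl (haΓ.trans hfin)).trans ?_))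
    rw [inf_iSup_eq]
    exact iSup_le fun k => (hc k).le
  refine ⟨_, hk, inf_le_left, ?_⟩
  obtain ⟨t, ht⟩ := exists_enum_fin (Δ := a ⊓ (VB B).leCard F (check (nn k))) inf_le_right
  obtain ⟨g, hg⟩ := exists_wit (ext_mem_left G) hne
  have h1 : ∀ j : Fin k, ∃ τ : Lm Γ G, bmem (t j) G ≤ beq τ.1 (t j) := by
    intro j
    obtain ⟨τ, h1, h2⟩ := mix2 (bmem (t j) G) (t j) g
    refine ⟨⟨τ, ?_⟩, h1⟩
    have : Γ = (Γ ⊓ bmem (t j) G) ⊔ (Γ ⊓ (bmem (t j) G)ᶜ) := by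
      rw [← inf_sup_left, sup_compl_eq_top, inf_top_eq]
    rw [this]
    refine sup_le ?_ ?_
    · exact (ext_mem_left G).of_le' (x := t j) (inf_le_right.trans h1) inf_le_right
    · exact (ext_mem_left G).of_le' (x := g) (inf_le_right.trans h2) (inf_le_left.trans hg)
  choose τ hτ using h1
  refine ⟨Finset.univ.image τ, fun x => ?_⟩
  refine (le_inf le_rfl (ht x)).trans ?_
  rw [inf_iSup_eq]
  refine iSup_le fun j => ?_
  refine le_iSup_of_le (τ j) (le_iSup_of_le (Finset.mem_image_of_mem _ (Finset.mem_univ j)) ?_)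
  set Ω := a ⊓ (VB B).leCard F (check (nn k)) ⊓ bmem x F ⊓ beq x (t j) with hΩ
  have e1 : Ω ≤ beq x (t j) := inf_le_right
  have e2 : Ω ≤ bmem x F := inf_le_left.trans inf_le_right
  have e0 : Ω ≤ Γ := (inf_le_left.trans (inf_le_left.trans inf_le_left)).trans haΓ
  have e3 : Ω ≤ bmem x G := sub_apply hsub x e0 e2
  have e4 : Ω ≤ bmem (t j) G := (ext_mem_left G).of_le e1 e3
  exact (ext_eq_right x).of_le' (e4.trans (hτ j)) e1

theorem dset_fin (Γ : B) (G : BName B) (d : ℕ → Lm Γ G) (p : ℕ → B)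
    (hp : Γ ≤ ⨆ n : ℕ, ⨅ i : ℕ, ⨅ _ : n ≤ i, (p i)ᶜ) :
    Γ ≤ fsub (VB B) (check om) (dset d p) G := by
  refine le_inf ?_ ?_
  · rw [le_sub_iff]
    intro i
    exact inf_le_left.trans (d i.down).2
  · rw [isFin_eq]
    refine (le_inf le_rfl hp).trans ?_
    rw [inf_iSup_eq]
    refine iSup_le fun n => le_iSup_of_le n ?_
    have h1 : Enum (Γ ⊓ ⨅ i : ℕ, ⨅ _ : n ≤ i, (p i)ᶜ) (dset d p)
        (fun y : ULift.{u} (Fin n) => (d y.down).1) := by
      intro z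
      have h2 : bmem z (dset d p) = ⨆ i : ULift.{u} ℕ, p i.down ⊓ beq z (d i.down).1 := rfl
      rw [h2, inf_iSup_eq]
      refine iSup_le fun i => ?_
      by_cases hi : i.down < n
      · exact le_iSup_of_le ⟨⟨i.down, hi⟩⟩ (inf_le_right.trans inf_le_right)
      · have h3 : (Γ ⊓ ⨅ i : ℕ, ⨅ _ : n ≤ i, (p i)ᶜ) ≤ (p i.down)ᶜ :=
          inf_le_right.trans (iInf_le_of_le i.down (iInf_le _ (not_lt.1 hi)))
        refine le_trans ?_ bot_le
        refine (inf_le_inf h3 inf_le_left).trans ?_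
        rw [compl_inf_self]
    have h2 := le_leCard_of_enum (n : Cardinal.{u}) (by rw [mk_uLift, mk_fin]; simp) h1
    rwa [ord_natCast] at h2

theorem vfi : VfiStatement.{u} := by
  intro B _ Γ G
  exact ⟨fun F hF φ hφ hG => bound Γ G F hF φ hφ hG,
    fun F hne hF a ha haΓ => local_enum Γ G F hne hF a ha haΓ,
    fun d p hp => dset_fin Γ G d p hp⟩

end Pool.Agent.Lib.MP_6d445e_gt.H94
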