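import Pool.Agent.Lib.MP_6d445e_gt.H50.Tools
import Pool.Agent.Lib.MP_6d445e_gt.H82.Vgr
import Pool.Agent.Lib.MP_6d445e_gt.H94.Vfi

/-! # VMB: the group is Menger-bounded -/

universe u v

open Cardinal Filter

namespace Pool.Agent.Lib.MP_6d445e_gt.H94

open Pool.Agent.Lib.MP_6d445e_gt
open Pool.Agent.Lib.MP_100a6c_lc
open BName
open H36 (om nn)
open Pool.Agent.Lib.MP_6d445e_gt.H82 (ext_op1 ext_op2 ext_op3 himp_apply gAx GAx)

variable {B : Type u} [CompleteBooleanAlgebra B]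

/-- The computation in the group. -/
theorem grp_step {Λ : Type v} {Γ : B} {D : BG B Λ} {U : ℕ → Λ → B} {d : ℕ → Λ}
    (hD : BGR Γ D) (hU : BGU Γ D U d) {a y w x z : Λ} {k : ℕ} {Ω : B} (hΩ : Ω ≤ Γ)
    (h1 : Ω ≤ D.eq z (D.mul a y)) (h2 : Ω ≤ D.eq x (D.mul y w)) (hz : Ω ≤ U (k + 1) z)
    (hw : Ω ≤ U (k + 1) w) : Ω ≤ U k (D.mul a x) := by
  have e1 : Ω ≤ D.eq (D.mul a x) (D.mul a (D.mul y w)) :=
    (le_inf (le_inf hΩ (hΩ.trans (hD.refl a))) h2).trans (hD.mulc _ _ _ _)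
  have e2 : Ω ≤ D.eq (D.mul (D.mul a y) w) (D.mul a (D.mul y w)) := hΩ.trans (hD.assoc _ _ _)
  have e3 : Ω ≤ D.eq (D.mul z w) (D.mul (D.mul a y) w) :=
    (le_inf (le_inf hΩ h1) (hΩ.trans (hD.refl w))).trans (hD.mulc _ _ _ _)
  have e4 : Ω ≤ D.eq (D.mul z w) (D.mul a (D.mul y w)) :=
    (le_inf (le_inf hΩ e3) e2).trans (hD.trans _ _ _)
  have e5 : Ω ≤ D.eq (D.mul a (D.mul y w)) (D.mul a x) := (le_inf hΩ e1).trans (hD.symm _ _)
  have e6 : Ω ≤ D.eq (D.mul z w) (D.mul a x) := (le_inf (le_inf hΩ e4) e5).trans (hD.trans _ _ _)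
  have e7 : Ω ≤ U k (D.mul z w) := (le_inf (le_inf hΩ hz) hw).trans (hU.mul _ _ _)
  exact (le_inf (le_inf hΩ e6) e7).trans (hU.congr _ _ _)

/-- Names of elements. -/
theorem exists_lm {Γ : B} {G : BName B} (g : Lm Γ G) (z : BName B) :
    ∃ z' : Lm Γ G, bmem z G ≤ beq z'.1 z := by
  obtain ⟨τ, h1, h2⟩ := mix2 (bmem z G) z g.1
  refine ⟨⟨τ, ?_⟩, h1⟩
  have : Γ = (Γ ⊓ bmem z G) ⊔ (Γ ⊓ (bmem z G)ᶜ) := by
    rw [← inf_sup_left, sup_compl_eq_top, inf_top_eq]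
  rw [this]
  refine sup_le ?_ ?_
  · exact (ext_mem_left G).of_le' (x := z) (inf_le_right.trans h1) inf_le_right
  · exact (ext_mem_left G).of_le' (x := g.1) (inf_le_right.trans h2) (inf_le_left.trans g.2)

theorem ext_isSeq (w : BName B) : Ext (fun g => isSeq (VB B) w g) :=
  (Ext.iInf fun n => (Ext.const _).himp (Ext.iSup fun A => ext_rel_fst n A)).inf
    (Ext.iInf fun n => Ext.iInf fun A => Ext.iInf fun A' =>
      ((ext_rel_fst n A).inf (ext_rel_fst n A')).himp (Ext.const _))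

theorem ext_isFSeq (w G : BName B) : Ext (fun g => isFSeq (VB B) w G g) :=
  (ext_isSeq w).inf (Ext.iInf fun n => Ext.iInf fun F =>
    ((Ext.const _).inf (ext_rel_fst n F)).himp (Ext.const _))

theorem ext_tr1 (m A x : BName B) : Ext (fun F => tr (VB B) m F A x) :=
  Ext.iSup fun _ => Ext.iSup fun _ => ((ext_mem_right _).inf (Ext.const _)).inf (Ext.const _)

theorem ext_tr2 (m F x : BName B) : Ext (fun A => tr (VB B) m F A x) :=
  Ext.iSup fun _ => Ext.iSup fun _ => ((Ext.const _).inf (ext_mem_right _)).inf (Ext.const _)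

theorem fn_disj {ν : ℕ → ℕ → B} (hν : IsFN ν) {n k k' : ℕ} (h : k ≠ k') :
    ν n k ⊓ ν n k' = ⊥ := by
  refine le_bot_iff.1 (le_of_ae ?_)
  filter_upwards [hν] with g hg hm
  rw [g.mem_inf] at hm
  exact absurd ((hg n).unique hm.1 hm.2) h

theorem fn_top {ν : ℕ → ℕ → B} (hν : IsFN ν) (n : ℕ) : ⨆ k, ν n k = ⊤ := by
  refine top_le_iff.1 (le_of_ae ?_)
  filter_upwards [hν] with g hg _
  obtain ⟨k, hk, _⟩ := hg n
  exact g.mono (le_iSup _ k) hk

/-- The sequence of neighbourhoods. -/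
noncomputable def sq (ν : ℕ → ℕ → B) (U : ℕ → BName B) (m0 : ℕ) : BName B :=
  relFam (ι := ULift.{u} (ℕ × ℕ)) (fun p => check (nn p.down.1)) (fun p => U (p.down.2 + 1))
    fun p => ν (p.down.1 + m0) p.down.2

theorem rel_sq (ν : ℕ → ℕ → B) (U : ℕ → BName B) (m0 : ℕ) (a z : BName B) :
    (VB B).rel (sq ν U m0) a z = ⨆ p : ULift.{u} (ℕ × ℕ), ν (p.down.1 + m0) p.down.2 ⊓
      (beq a (check (nn p.down.1)) ⊓ beq z (U (p.down.2 + 1))) := rel_relFam _ _ _ _ _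

theorem isSeq_sq {ν : ℕ → ℕ → B} (hν : IsFN ν) (U : ℕ → BName B) (m0 : ℕ) (Γ : B) :
    Γ ≤ isSeq (VB B) (check om) (sq ν U m0) := by
  refine le_inf (le_iInf fun a => ?_) (le_iInf fun a => le_iInf fun A => le_iInf fun A' => ?_)
  · rw [le_himp_iff]
    have h1 : (VB B).mem a (check om) = ⨆ i : ℕ, beq a (check (nn i)) := H36.mem_check_om a
    rw [h1]
    refine inf_le_right.trans (iSup_le fun i => ?_)
    have h2 : beq a (check (nn i)) = ⨆ k, beq a (check (nn i)) ⊓ ν (i + m0) k := by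
      rw [← inf_iSup_eq, fn_top hν, inf_top_eq]
    rw [h2]
    refine iSup_le fun k => le_iSup_of_le (U (k + 1)) ?_
    rw [rel_sq]
    refine le_iSup_of_le ⟨(i, k)⟩ (le_inf inf_le_right (le_inf inf_le_left ?_))
    rw [beq_refl]
    exact le_top
  · rw [le_himp_iff, rel_sq, rel_sq, iSup_inf_iSup, inf_iSup_eq]
    refine iSup_le fun ⟨⟨p⟩, ⟨q⟩⟩ => ?_
    dsimp only
    by_cases h1 : p.1 = q.1
    · by_cases h2 : p.2 = q.2
      · rw [h2]
        refine (le_inf (inf_le_right.trans (inf_le_left.trans (inf_le_right.trans inf_le_right)))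
          (?_ : _ ≤ beq (U (q.2 + 1)) A')).trans (beq_trans _ _ _)
        rw [beq_symm (U (q.2 + 1)) A']
        exact inf_le_right.trans (inf_le_right.trans (inf_le_right.trans inf_le_right))
      · refine le_trans ?_ bot_le
        rw [h1]
        refine le_trans ?_ (fn_disj hν (n := q.1 + m0) h2).le
        exact le_inf (inf_le_right.trans (inf_le_left.trans inf_le_left))
          (inf_le_right.trans (inf_le_right.trans inf_le_left))
    · refine le_trans ?_ bot_le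
      rw [← beq_check_of_ne (fun h => h1 (H36.nn_inj h) : nn p.1 ≠ nn q.1)]
      refine (le_inf ?_ ?_).trans (beq_trans _ a _)
      · rw [beq_symm]
        exact inf_le_right.trans (inf_le_left.trans (inf_le_right.trans inf_le_left))
      · exact inf_le_right.trans (inf_le_right.trans (inf_le_right.trans inf_le_left))

theorem ext_isNb (t e : BName B) : Ext (fun A => isNb (VB B) t e A) :=
  (ext_mem_left t).inf (ext_mem_right e)

theorem nb_sq {ν : ℕ → ℕ → B} (U : ℕ → BName B) (m0 : ℕ) {Γ : B} {G e t : BName B}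
    (hU : ∀ n, Γ ≤ isNb (VB B) t e (U n)) (hUG : ∀ n, Γ ≤ (beq (U n) G)ᶜ) :
    Γ ≤ ⨅ n, ⨅ A, (VB B).mem n (check om) ⊓ (VB B).rel (sq ν U m0) n A ⇨
      isNb (VB B) t e A ⊓ ((VB B).eq A G)ᶜ := by
  refine le_iInf fun n => le_iInf fun A => ?_
  rw [le_himp_iff, rel_sq, inf_iSup_eq, inf_iSup_eq]
  refine iSup_le fun p => ?_
  have hext : Ext (fun A : BName B => isNb (VB B) t e A ⊓ ((VB B).eq A G)ᶜ) :=
    (ext_isNb t e).inf (ext_eq_left G).compl
  refine hext.of_le' (x := U (p.down.2 + 1)) ?_ ?_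
  · exact inf_le_right.trans (inf_le_right.trans (inf_le_right.trans inf_le_right))
  · exact inf_le_left.trans (le_inf (hU _) (hUG _))

section

variable {Γ : B} {G m e t : BName B} {D : BG B (Lm Γ G)}

/-- The Boolean value of `y ∈ d i * U (ν (n + m0) + 1)`. -/
def ph (D : BG B (Lm Γ G)) (m : BName B) (ν : ℕ → ℕ → B) (U : ℕ → BName B) (d : ℕ → Lm Γ G)
    (m0 n i : ℕ) (y : BName B) : B :=
  ⨆ k, ν (n + m0) k ⊓ ⨆ z, op (VB B) m (D.inv (d i)).1 y z ⊓ bmem z (U (k + 1))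

theorem ext_ph (ν : ℕ → ℕ → B) (U : ℕ → BName B) (d : ℕ → Lm Γ G) (m0 n i : ℕ) :
    Ext (ph D m ν U d m0 n i) :=
  Ext.iSup fun _ => (Ext.const _).inf (Ext.iSup fun z =>
    (ext_op2 m (D.inv (d i)).1 z).inf (Ext.const _))

theorem cov_ph {ν : ℕ → ℕ → B} (hν : IsFN ν) {U : ℕ → BName B} {d : ℕ → Lm Γ G}
    (hV : VGr Γ G m e D) (hU : BGU Γ D (fun n x => bmem x.1 (U n)) d) (m0 n : ℕ) (x : BName B) :
    Γ ⊓ bmem x G ≤ ⨆ i, ph D m ν U d m0 n i x := by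
  obtain ⟨x', hx'⟩ := exists_lm D.one x
  have h1 : ∀ k, Γ ≤ ⨆ i, bmem (D.mul (D.inv (d i)) x').1 (U (k + 1)) := fun k =>
    hU.dns (k + 1) x'
  have h2 : Γ ≤ ⨆ i, ph D m ν U d m0 n i x'.1 := by
    have h3 : Γ = ⨆ k, Γ ⊓ ν (n + m0) k := by
      rw [← inf_iSup_eq, fn_top hν, inf_top_eq]
    refine h3.le.trans ?_
    refine iSup_le fun k => ?_
    refine (le_inf le_rfl (inf_le_left.trans (h1 k))).trans ?_
    rw [inf_iSup_eq]
    refine iSup_le fun i => le_iSup_of_le i (le_iSup_of_le k ?_)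
    refine le_inf (inf_le_left.trans inf_le_right)
      (le_iSup_of_le (D.mul (D.inv (d i)) x').1 (le_inf ?_ inf_le_right))
    have h4 := hV.mul (D.inv (d i)) x' (D.mul (D.inv (d i)) x').1
    rw [beq_refl, inf_top_eq] at h4
    have h5 : Γ ≤ op (VB B) m (D.inv (d i)).1 x'.1 (D.mul (D.inv (d i)) x').1 :=
      h4.ge.trans inf_le_right
    exact (inf_le_left.trans inf_le_left).trans h5
  have h3 : Ext (fun x : BName B => ⨆ i, ph D m ν U d m0 n i x) :=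
    Ext.iSup fun i => ext_ph ν U d m0 n i
  exact h3.of_le (x := x'.1) (inf_le_right.trans hx') (inf_le_left.trans h2)

/-- The bound. -/
theorem key_step {ν : ℕ → ℕ → B} (hν : IsFN ν) {U : ℕ → BName B} {d : ℕ → Lm Γ G}
    (hH : VHyp Γ G m e t) (hV : VGr Γ G m e D)
    (hU : BGU Γ D (fun n x => bmem x.1 (U n)) d) (m0 n k j : ℕ) (F : BName B) (x : Lm Γ G) :
    Γ ⊓ (ν (n + m0) k ⊓ tr (VB B) m F (U (k + 1)) x.1) ⊓
      (⨅ y, bmem y F ⇨ ⨆ i, ⨆ _ : i ≤ j, ph D m ν U d m0 n i y) ≤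
        ⨆ i ∈ Finset.range (j + 1), bmem (D.mul (D.inv (d i)) x).1 (U k) := by
  have ax := gAx hH.grp
  unfold tr
  rw [inf_iSup_eq, inf_iSup_eq, iSup_inf_eq]
  refine iSup_le fun y => ?_
  rw [inf_iSup_eq, inf_iSup_eq, iSup_inf_eq]
  refine iSup_le fun w => ?_
  set Ω := Γ ⊓ (ν (n + m0) k ⊓ ((VB B).mem y F ⊓ (VB B).mem w (U (k + 1)) ⊓
    op (VB B) m y w x.1)) ⊓ ⨅ y, bmem y F ⇨ ⨆ i, ⨆ _ : i ≤ j, ph D m ν U d m0 n i y with hΩ
  have o1 : Ω ≤ Γ := inf_le_left.trans inf_le_left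
  have o2 : Ω ≤ ν (n + m0) k := inf_le_left.trans (inf_le_right.trans inf_le_left)
  have o3 : Ω ≤ bmem y F := inf_le_left.trans (inf_le_right.trans (inf_le_right.trans
    (inf_le_left.trans inf_le_left)))
  have o4 : Ω ≤ bmem w (U (k + 1)) := inf_le_left.trans (inf_le_right.trans (inf_le_right.trans
    (inf_le_left.trans inf_le_right)))
  have o5 : Ω ≤ op (VB B) m y w x.1 := inf_le_left.trans (inf_le_right.trans (inf_le_right.trans
    inf_le_right))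
  have o6 : Ω ≤ ⨆ i, ⨆ _ : i ≤ j, ph D m ν U d m0 n i y :=
    iInf_himp_apply (Γ := Ω) inf_le_right y le_rfl o3
  refine (le_inf le_rfl o6).trans ?_
  rw [inf_iSup_eq]
  refine iSup_le fun i => ?_
  rw [inf_iSup_eq]
  refine iSup_le fun hi => ?_
  refine le_iSup_of_le i (le_iSup_of_le (Finset.mem_range.2 (Nat.lt_succ_of_le hi)) ?_)
  unfold ph
  rw [inf_iSup_eq]
  refine iSup_le fun k' => ?_
  by_cases hk : k' = k
  · subst hk
    rw [inf_iSup_eq, inf_iSup_eq]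
    refine iSup_le fun z => ?_
    set Θ := Ω ⊓ (ν (n + m0) k' ⊓ (op (VB B) m (D.inv (d i)).1 y z ⊓ bmem z (U (k' + 1)))) with hΘ
    have p0 : Θ ≤ Ω := inf_le_left
    have p1 : Θ ≤ Γ := p0.trans o1
    have p2 : Θ ≤ op (VB B) m (D.inv (d i)).1 y z :=
      inf_le_right.trans (inf_le_right.trans inf_le_left)
    have p3 : Θ ≤ bmem z (U (k' + 1)) := inf_le_right.trans (inf_le_right.trans inf_le_right)
    have p4 : Θ ≤ bmem y G ∧ Θ ≤ bmem w G ∧ _ := ax.dom y w x.1 Θ p1 (p0.trans o5)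
    have p5 : Θ ≤ bmem z G := (ax.dom _ y z Θ p1 p2).2.2
    obtain ⟨y', hy'⟩ := exists_lm D.one y
    obtain ⟨w', hw'⟩ := exists_lm D.one w
    obtain ⟨z', hz'⟩ := exists_lm D.one z
    have a1 : Θ ≤ beq y'.1 y := p4.1.trans hy'
    have a2 : Θ ≤ beq w'.1 w := p4.2.1.trans hw'
    have a3 : Θ ≤ beq z'.1 z := p5.trans hz'
    have b1 : Θ ≤ D.eq z' (D.mul (D.inv (d i)) y') := by
      rw [hV.eq]
      have c1 : Θ ≤ op (VB B) m (D.inv (d i)).1 y'.1 z := (ext_op2 m _ z).of_le' a1 p2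
      have c2 : Θ ≤ op (VB B) m (D.inv (d i)).1 y'.1 z'.1 := (ext_op3 m _ _).of_le' a3 c1
      have c3 := hV.mul (D.inv (d i)) y' z'.1
      have c4 : Θ ≤ Γ ⊓ beq z'.1 (D.mul (D.inv (d i)) y').1 := by
        rw [← c3]
        exact le_inf p1 c2
      exact c4.trans inf_le_right
    have b2 : Θ ≤ D.eq x (D.mul y' w') := by
      rw [hV.eq]
      have c1 : Θ ≤ op (VB B) m y'.1 w x.1 := (ext_op1 m w x.1).of_le' a1 (p0.trans o5)
      have c2 : Θ ≤ op (VB B) m y'.1 w'.1 x.1 := (ext_op2 m _ x.1).of_le' a2 c1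
      have c3 := hV.mul y' w' x.1
      have c4 : Θ ≤ Γ ⊓ beq x.1 (D.mul y' w').1 := by
        rw [← c3]
        exact le_inf p1 c2
      exact c4.trans inf_le_right
    have b3 : Θ ≤ bmem z'.1 (U (k' + 1)) := (ext_mem_left _).of_le' a3 p3
    have b4 : Θ ≤ bmem w'.1 (U (k' + 1)) := (ext_mem_left _).of_le' a2 (p0.trans o4)
    exact grp_step hV.gr hU p1 b1 b2 b3 b4
  · refine le_trans ?_ bot_le
    rw [← fn_disj hν (n := n + m0) hk]
    exact le_inf (inf_le_right.trans inf_le_left) (inf_le_left.trans o2)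

/-- The selected finite sets. -/
theorem exists_sel {ν : ℕ → ℕ → B} (hν : IsFN ν) {U : ℕ → BName B}
    (hM : Γ ≤ MB (VB B) (check om) G m e t) (hU : ∀ n, Γ ≤ isNb (VB B) t e (U n))
    (hUG : ∀ n, Γ ≤ (beq (U n) G)ᶜ) (m0 : ℕ) :
    ∃ F : ℕ → BName B, (∀ n, Γ ≤ fsub (VB B) (check om) (F n) G) ∧ ∀ x, Γ ≤ bmem x G →
      Γ ≤ ⨆ p : ℕ × ℕ, ν (p.1 + m0) p.2 ⊓ tr (VB B) m (F p.1) (U (p.2 + 1)) x := by
  have h1 := himp_apply (hM.trans (iInf_le _ (sq ν U m0))) le_rfl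
    (le_inf (isSeq_sq hν U m0 Γ) (nb_sq U m0 hU hUG))
  obtain ⟨g, hg⟩ := exists_wit ((ext_isFSeq (check om) G).inf (Ext.iInf fun x =>
    (Ext.const _).himp (Ext.iSup fun n => Ext.iSup fun A => Ext.iSup fun F =>
      ((Ext.const _).inf (ext_rel_fst n F)).inf (Ext.const _)))) h1
  have hg1 : Γ ≤ isFSeq (VB B) (check om) G g := hg.trans inf_le_left
  have hg2 := hg.trans inf_le_right
  have hs : Γ ≤ isSeq (VB B) (check om) g := hg1.trans inf_le_left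
  have hmem : ∀ n : ℕ, (VB B).mem (check (nn n)) (check om) = ⊤ := fun n =>
    mem_check_of_mem (H36.nn_mem_om n)
  have h2 : ∀ n : ℕ, ∃ F, Γ ≤ (VB B).rel g (check (nn n)) F := fun n =>
    exists_wit (ext_rel_trd g _) (himp_apply ((hs.trans inf_le_left).trans (iInf_le _ (check (nn n))))
      le_rfl (by rw [hmem]; exact le_top))
  choose F hF using h2
  refine ⟨F, fun n => ?_, fun x hx => ?_⟩
  · exact himp_apply ((hg1.trans inf_le_right).trans (iInf_le_of_le (check (nn n)) (iInf_le _ (F n))))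
      le_rfl (le_inf (by rw [hmem]; exact le_top) (hF n))
  · have h3 := himp_apply (hg2.trans (iInf_le _ x)) le_rfl hx
    refine (le_inf le_rfl h3).trans ?_
    rw [inf_iSup_eq]
    refine iSup_le fun n => ?_
    rw [inf_iSup_eq]
    refine iSup_le fun A => ?_
    rw [inf_iSup_eq]
    refine iSup_le fun F' => ?_
    have h4 : Γ ⊓ ((VB B).mem n (check om) ⊓ (VB B).rel (sq ν U m0) n A ⊓ (VB B).rel g n F' ⊓
        tr (VB B) m F' A x) ≤ ⨆ p : ULift.{u} (ℕ × ℕ), Γ ⊓ ((VB B).rel g n F' ⊓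
          tr (VB B) m F' A x) ⊓ (ν (p.down.1 + m0) p.down.2 ⊓
      (beq n (check (nn p.down.1)) ⊓ beq A (U (p.down.2 + 1)))) := by
      rw [← inf_iSup_eq, ← rel_sq]
      refine le_inf (le_inf inf_le_left (le_inf ?_ ?_)) ?_
      · exact inf_le_right.trans (inf_le_left.trans inf_le_right)
      · exact inf_le_right.trans inf_le_right
      · exact inf_le_right.trans (inf_le_left.trans (inf_le_left.trans inf_le_right))
    refine h4.trans (iSup_le fun p => le_iSup_of_le p.down ?_)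
    set Ω := Γ ⊓ ((VB B).rel g n F' ⊓ tr (VB B) m F' A x) ⊓ (ν (p.down.1 + m0) p.down.2 ⊓
      (beq n (check (nn p.down.1)) ⊓ beq A (U (p.down.2 + 1)))) with hΩ
    have o1 : Ω ≤ Γ := inf_le_left.trans inf_le_left
    have o2 : Ω ≤ (VB B).rel g n F' := inf_le_left.trans (inf_le_right.trans inf_le_left)
    have o3 : Ω ≤ tr (VB B) m F' A x := inf_le_left.trans (inf_le_right.trans inf_le_right)
    have o4 : Ω ≤ ν (p.down.1 + m0) p.down.2 := inf_le_right.trans inf_le_left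
    have o5 : Ω ≤ beq n (check (nn p.down.1)) :=
      inf_le_right.trans (inf_le_right.trans inf_le_left)
    have o6 : Ω ≤ beq A (U (p.down.2 + 1)) := inf_le_right.trans (inf_le_right.trans inf_le_right)
    refine le_inf o4 ?_
    have o7 : Ω ≤ (VB B).rel g (check (nn p.down.1)) F' := (ext_rel_snd g F').of_le o5 o2
    have o8 : Ω ≤ beq F' (F p.down.1) := himp_apply ((hs.trans inf_le_right).trans
      (iInf_le_of_le (check (nn p.down.1)) (iInf_le_of_le F' (iInf_le _ (F p.down.1))))) o1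
      (le_inf o7 (o1.trans (hF _)))
    have o9 : Ω ≤ tr (VB B) m (F p.down.1) A x := (ext_tr1 m A x).of_le o8 o3
    exact (ext_tr2 m (F p.down.1) x).of_le o6 o9

end

theorem vmb (hfi : VfiStatement.{u}) : VmbStatement.{u} := by
  intro B _ Γ G m e t D hH hV hM U d hU hUG hB ν hν _
  choose F hF1 hF2 using fun m0 => exists_sel hν hM hU hUG m0
  let q : ℕ → ℕ → ℕ → B := fun m0 n j =>
    ⨅ y, bmem y (F m0 n) ⇨ ⨆ i, ⨆ _ : i ≤ j, ph D m ν U d m0 n i y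
  have hq : ∀ m0 n, Γ ≤ ⨆ j, q m0 n j := fun m0 n =>
    (hfi B Γ G).1 (F m0 n) (hF1 m0 n) (fun i => ph D m ν U d m0 n i)
      (fun i => ext_ph ν U d m0 n i) (fun x => cov_ph hν hV hB m0 n x)
  obtain ⟨Φ, hΦ1, hΦ2⟩ := H50.exists_fn (A := B)
    (F := fun h N => (Finset.range (N + 1)).sup fun m0 => fv (q m0) h (N - m0))
    (fun N => H50.meas_sup fun m0 => H50.meas_fv (q m0) (N - m0))
  refine ⟨Φ, hΦ1, fun x => ?_⟩
  have e1 : ∀ᶠ h in ae B, ∀ m0, ((⨆ p : ℕ × ℕ, ν (p.1 + m0) p.2 ⊓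
      tr (VB B) m (F m0 p.1) (U (p.2 + 1)) x.1) ∈ h ↔ ∃ p : ℕ × ℕ, ν (p.1 + m0) p.2 ⊓
      tr (VB B) m (F m0 p.1) (U (p.2 + 1)) x.1 ∈ h) := ae_all_nat fun m0 => ae_iSup _
  have e2 : ∀ᶠ h in ae B, ∀ m0 n, ((⨆ j, q m0 n j) ∈ h ↔ ∃ j, q m0 n j ∈ h) :=
    ae_all_nat fun m0 => ae_all_nat fun n => ae_iSup _
  filter_upwards [e1, e2, hΦ2, hν] with h h1 h2 h3 h4 hΓ m0
  obtain ⟨⟨n, k⟩, hp⟩ := (h1 m0).1 (h.mono (hF2 m0 x.1 x.2) hΓ)
  dsimp only at hp
  have hj : ∃ j, q m0 n j ∈ h := (h2 m0 n).1 (h.mono (hq m0 n) hΓ)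
  have hj' : q m0 n (fv (q m0) h n) ∈ h := H50.fv_mem hj
  refine ⟨n + m0, Nat.le_add_left _ _, ?_⟩
  have hνk : fv ν h (n + m0) = k := by
    have hk : ν (n + m0) k ∈ h := h.mono inf_le_left hp
    exact H50.fv_eq fun j => ⟨fun hj => (h4 (n + m0)).unique hk hj, fun hj => hj ▸ hk⟩
  rw [hνk, h3]
  have h5 : (⨆ i ∈ Finset.range (fv (q m0) h n + 1), bmem (D.mul (D.inv (d i)) x).1 (U k)) ∈ h :=
    h.mono (key_step hν hH hV hB m0 n k (fv (q m0) h n) (F m0 n) x)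
      (h.inf _ _ (h.inf _ _ hΓ hp) hj')
  rw [Ult.mem_finset_iSup] at h5
  obtain ⟨i, hi, hi2⟩ := h5
  have h6 : fv (rl D (fun n x => bmem x.1 (U n)) d x) h k ≤ i := Nat.sInf_le hi2
  refine h6.trans ((Nat.lt_succ_iff.1 (Finset.mem_range.1 hi)).trans ?_)
  have h7 := Finset.le_sup (s := Finset.range (n + m0 + 1))
    (f := fun m0' => fv (q m0') h (n + m0 - m0')) (b := m0)
    (Finset.mem_range.2 (Nat.lt_succ_of_le (Nat.le_add_left _ _)))
  simpa using h7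

end Pool.Agent.Lib.MP_6d445e_gt.H94
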